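import Pool.Agent.K6.H88.TC.Par4

/-!
# The parity of the rank of a positive proportion of all elliptic curves over `ℚ` over infinitely many
# Galois extensions of 2-power degree at once

Let `K / ℚ` be any finite Galois extension of 2-power degree in which `2` is unramified, and `N` a number.

For a finite set `S` of primes and an elliptic curve `E : y ^ 2 = x ^ 3 + A x + B` over `ℚ` let `C(E)` be the
class of all finite Galois extensions `M / ℚ` of 2-power degree in which `2` is unramified, in which all
`q ∈ S` split completely and in which a prime `q > N` is ramified only if `x ^ 3 + A x + B` has no zero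
modulo `q`.

Theorem. There are `S` and `c > 0` such that for all large `X` at least `c` times the number of
all elliptic curves `E / ℚ` of height at most `X` have the following properties. The field `K` is in the
class `C(E)`. Let `M` be ANY field in the class `C(E)` which is not cyclic over `ℚ`, and `d` ANY integer,
`d = 1` or `d = 2` modulo `4`, all prime factors `q` of which are at most `N` or such that
`x ^ 3 + A x + B` has no zero modulo `q`. Let `E ^ d` be the quadratic twist. Then

* `E ^ d (M)` is finite;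
* the parity statement `(-1) ^ rank E ^ d (M) = W(E ^ d / M)` holds, and both sides are `1`: for every system of
  signs `w_v` at the finite places of `M` such that `w_v = 1` if `E ^ d` has good reduction at `v` and such
  that `w_v` depends only on the prime number below `v`, the product `W` of all `w_v` and of `-1` for
  each infinite place is `1`. The local root numbers of `E ^ d` have these two properties, because `E ^ d` is
  defined over `ℚ` and `M / ℚ` is a Galois extension;
* if `f` is any analytic continuation of the Hasse-Weil `L`-function of `E ^ d / M` to a connected open set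
  which contains `Re s > 3 / 2` and `s = 1`, as in the frozen statement of the problem, and if the
  completed function satisfies the functional equation with the sign `W`, then the order of `f` at `1`
  and the rank of `E ^ d (M)` have the same parity.

There are infinitely many fields `M` of this kind, also if only the extensions of `K` are counted, and if
`K` is not cyclic, then `K` is one of them.

The proof. The finiteness of `E ^ d (M)` is the theorem of `MP_788af2_nt.AllTwoExtensions`, which is based on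
the projects PQ and PV (helper922, in the starting files). For the signs let `M` be not
cyclic. Its Galois group `G` is a 2-group and has two subgroups of index two, so that `M` contains the square
roots of two integers which are independent modulo squares. One of the three products is positive, and an
automorphism which changes the sign of its square root gives an involution without fixed points of the
set of the infinite places (two real embeddings, or two pairs of complex embeddings, which have
different values at the square root), so that their number is even. Let `p` be a prime. If the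
ramification index of `p` in `M` is odd, then (as `2` is unramified) one of the three products is a
square in `ℚ_p`, up to a square of `ℚ` it is a square modulo `p` or `1` modulo `8`, and the same argument
shows that the number of the places over `p` is even, so that the product of their signs is `1`. If the
ramification index is even, then `p` is odd and ramified in `M`, `x ^ 3 + A x + B` has no zero modulo `p`,
so that `E` has good reduction at `p`, and `E ^ d` has good reduction at the places of `M` over `p`,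
because the valuation of `d` there is even. The last statement follows from the expansion of the
completed function at `s = 1`.
-/

set_option autoImplicit false
set_option linter.all false

namespace Pool.Agent.Results.MP_413b36_nt.ParityOverTwoExtensions

open Filter NumberField IsDedekindDomain
open scoped Classical

/-- The equation `y ^ 2 = x ^ 3 + A x + B` with integers `A`, `B` defines an elliptic curve, and
there is no prime `p` with `p ^ 4 ∣ A` and `p ^ 6 ∣ B`. -/
structure IsMinimal (A B : ℤ) : Prop where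
  elliptic : 4 * A ^ 3 + 27 * B ^ 2 ≠ 0
  minimal : ∀ p : ℕ, p.Prime → ¬ ((p : ℤ) ^ 4 ∣ A ∧ (p : ℤ) ^ 6 ∣ B)

/-- The height. -/
def height (p : ℤ × ℤ) : ℤ := max (4 * |p.1| ^ 3) (27 * p.2 ^ 2)

/-- The set of all elliptic curves over `ℚ` of height at most `X`. -/
def Curves (X : ℕ) : Set (ℤ × ℤ) := {p | IsMinimal p.1 p.2 ∧ height p ≤ X}

/-- The quadratic twist by `d` of the curve `y ^ 2 = x ^ 3 + A x + B`, `p = (A, B)`, over `M`: the curve
`y ^ 2 = x ^ 3 + A d ^ 2 x + B d ^ 3`. -/
def twist (M : Type) [Field M] (p : ℤ × ℤ) (d : ℤ) : WeierstrassCurve M :=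
  ⟨0, 0, 0, ((p.1 * d ^ 2 : ℤ) : M), ((p.2 * d ^ 3 : ℤ) : M)⟩

section signs

variable (M : Type) [Field M] [NumberField M] (E : WeierstrassCurve M)

/-- The curve `E` has good reduction at the finite place `v` of `M`: it has an equation with `v`-integral
coefficients the discriminant of which is a `v`-adic unit. -/
def GoodReduction (v : HeightOneSpectrum (𝓞 M)) : Prop :=
  ∃ C : WeierstrassCurve.VariableChange M,
    v.valuation M (C • E).a₁ ≤ 1 ∧ v.valuation M (C • E).a₂ ≤ 1 ∧ v.valuation M (C • E).a₃ ≤ 1 ∧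
    v.valuation M (C • E).a₄ ≤ 1 ∧ v.valuation M (C • E).a₆ ≤ 1 ∧ v.valuation M (C • E).Δ = 1

/-- A system of signs for the finite places of `M` with two properties of the local root numbers of an
elliptic curve which is defined over `ℚ`, where `M / ℚ` is a Galois extension: the sign is `1` at the
places of good reduction, and it depends only on the prime number below. -/
structure Signs (w : HeightOneSpectrum (𝓞 M) → ℤ) : Prop where
  sign : ∀ v, w v = 1 ∨ w v = -1
  good : ∀ v, GoodReduction M E v → w v = 1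
  below : ∀ v v' : HeightOneSpectrum (𝓞 M), v.asIdeal.comap (algebraMap ℤ (𝓞 M)) =
    v'.asIdeal.comap (algebraMap ℤ (𝓞 M)) → w v = w v'

/-- The product of all the signs, with the sign `-1` for each infinite place. -/
noncomputable def globalSign (w : HeightOneSpectrum (𝓞 M) → ℤ) : ℤ :=
  (-1) ^ Fintype.card (InfinitePlace M) * ∏ᶠ v, w v

/-- For every nonzero prime ideal `P` the equation `m P` is an integral equation of `E` which is minimal
at `P`. -/
def LocallyMinimal (m : {P : Ideal (𝓞 M) // P.IsPrime ∧ P ≠ ⊥} → WeierstrassCurve (𝓞 M)) : Prop :=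
  ∀ P, (∃ C : WeierstrassCurve.VariableChange M, C • E = (m P).map (algebraMap (𝓞 M) M)) ∧
    ∀ W : WeierstrassCurve (𝓞 M),
      (∃ C : WeierstrassCurve.VariableChange M, C • E = W.map (algebraMap (𝓞 M) M)) →
      ∀ n : ℕ, (m P).Δ ∈ P.1 ^ n → W.Δ ∈ P.1 ^ n

/-- The Euler product, as in the frozen statement. -/
noncomputable def eulerProduct (m : {P : Ideal (𝓞 M) // P.IsPrime ∧ P ≠ ⊥} → WeierstrassCurve (𝓞 M))
    (s : ℂ) : ℂ :=
  ∏' P : {P : Ideal (𝓞 M) // P.IsPrime ∧ P ≠ ⊥},
    (1 - ((Nat.card (𝓞 M ⧸ P.1) : ℂ)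
          - (Nat.card {xy : (𝓞 M ⧸ P.1) × (𝓞 M ⧸ P.1) //
              ((m P).map (Ideal.Quotient.mk P.1)).toAffine.Equation xy.1 xy.2} : ℂ))
        * (Nat.card (𝓞 M ⧸ P.1) : ℂ) ^ (-s)
      + (if (m P).Δ ∈ P.1 then 0 else (Nat.card (𝓞 M ⧸ P.1) : ℂ) ^ (1 - 2 * s)))⁻¹

/-- The function `f` is an analytic continuation of the Hasse-Weil `L`-function of `E` to the
connected open set `U`, which contains `1` and the half plane `Re s > 3 / 2`. -/
structure Continuation (U : Set ℂ) (f : ℂ → ℂ) : Prop where
  isOpen : IsOpen U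
  connected : IsConnected U
  one : (1 : ℂ) ∈ U
  half : {s : ℂ | 3 / 2 < s.re} ⊆ U
  analytic : AnalyticOnNhd ℂ f U
  euler : ∃ m : {P : Ideal (𝓞 M) // P.IsPrime ∧ P ≠ ⊥} → WeierstrassCurve (𝓞 M),
    LocallyMinimal M E m ∧ ∀ s : ℂ, 3 / 2 < s.re → f s = eulerProduct M m s

end signs

/-- The completed function `(2 (2 π) ^ (-s) Γ(s)) ^ n A ^ (s / 2) f(s)`. -/
noncomputable def completed (n : ℕ) (A : ℝ) (f : ℂ → ℂ) (s : ℂ) : ℂ :=
  (2 * (2 * Real.pi : ℂ) ^ (-s) * Complex.Gamma s) ^ n * (A : ℂ) ^ (s / 2) * f s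

/-- The functional equation with the sign `ε`, for some positive number `A` (in the
conjecture `A` is the norm of the conductor times the square of the discriminant of `M`). -/
def FunctionalEquation (n : ℕ) (U : Set ℂ) (f : ℂ → ℂ) (ε : ℤ) : Prop :=
  ∃ A : ℝ, 0 < A ∧ ∀ s ∈ U, 2 - s ∈ U → completed n A f s = ε * completed n A f (2 - s)

/-- The curve `E` has only finitely many points over `M`. For every system of signs `w` as above the
product of all signs is `1`, and it is equal to `(-1) ^ rank E(M)`. If `f` is an analytic continuation of the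
`L`-function which satisfies the functional equation with this sign, then the order of `f` at `1` is
even, and the sum of the order and the rank is even. -/
structure Parity (M : Type) [Field M] [NumberField M] (E : WeierstrassCurve M) : Prop where
  finite : Finite E.toAffine.Point
  one : ∀ w, Signs M E w → globalSign M w = 1
  rank : ∀ w, Signs M E w → (-1 : ℤ) ^ Module.finrank ℤ E.toAffine.Point = globalSign M w
  order : ∀ w, Signs M E w → ∀ (U : Set ℂ) (f : ℂ → ℂ), Continuation M E U f →
    FunctionalEquation (Module.finrank ℚ M) U f (globalSign M w) →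
    Even (analyticOrderNatAt f 1) ∧
      Even (analyticOrderNatAt f 1 + Module.finrank ℤ E.toAffine.Point)

/-- The polynomial `X ^ 3 + A X + B`, `p = (A, B)`, has no zero modulo `q`. -/
def NoZero (p : ℤ × ℤ) (q : ℕ) : Prop := ∀ z : ℤ, ¬ (q : ℤ) ∣ z ^ 3 + p.1 * z + p.2

/-- The number `d` is not zero and all its prime factors `q` are at most `N` or `X ^ 3 + A X + B` has no
zero modulo `q`. -/
def Admissible (N : ℕ) (p : ℤ × ℤ) (d : ℤ) : Prop :=
  d ≠ 0 ∧ ∀ q : ℕ, q.Prime → (q : ℤ) ∣ d → q ≤ N ∨ NoZero p q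

/-- The prime `q` is unramified in `M`. -/
def Unramified (M : Type) [Field M] [NumberField M] (q : ℕ) : Prop :=
  ∀ 𝔭 : Ideal (𝓞 M), 𝔭.IsPrime → (q : 𝓞 M) ∉ 𝔭 ^ 2

/-- The prime `q` splits completely in `M`: it is unramified, and every integer of `M` is congruent to an
element of `ℤ` modulo every prime over `q`. -/
def SplitsCompletely (M : Type) [Field M] [NumberField M] (q : ℕ) : Prop :=
  Unramified M q ∧ ∀ 𝔭 : Ideal (𝓞 M), 𝔭.IsPrime → (q : 𝓞 M) ∈ 𝔭 → ∀ x : 𝓞 M, ∃ n : ℤ, x - n ∈ 𝔭

/-- The class of the Galois extensions `M / ℚ` of 2-power degree in which `2` is unramified, in which the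
primes in `S` split completely and in which only such primes `q > N` are ramified modulo which
`X ^ 3 + A X + B` has no zero. -/
structure InClass (N : ℕ) (S : Finset ℕ) (p : ℤ × ℤ) (M : Type) [Field M] [NumberField M] :
    Prop where
  galois : IsGalois ℚ M
  degree : ∃ n : ℕ, Module.finrank ℚ M = 2 ^ n
  two : Unramified M 2
  split : ∀ q ∈ S, SplitsCompletely M q
  ramified : ∀ q : ℕ, q.Prime → ¬ Unramified M q → q ≤ N ∨ NoZero p q

/-- The field `K` is in the class of the curve `p = (A, B)`. The parity statements hold for all twists of the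
curve by admissible `d`, `d = 1` or `d = 2` modulo `4`, over all fields `M` in the class which are not
cyclic over `ℚ`. For infinitely many primes `q` there is such an extension `M` of `K` which contains
the square root of `q`. -/
structure Uniform (N : ℕ) (S : Finset ℕ) (K : Type) [Field K] [NumberField K] (p : ℤ × ℤ) :
    Prop where
  given : InClass N S p K
  parity : ∀ (M : Type) [Field M] [NumberField M], InClass N S p M → ¬ IsCyclic Gal(M/ℚ) →
    ∀ d : ℤ, Admissible N p d → (d % 4 = 1 ∨ d % 4 = 2) → Parity M (twist M p d)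
  infinite : {q : ℕ | q.Prime ∧ ∃ (M : Type) (_ : Field M) (_ : NumberField M),
    InClass N S p M ∧ ¬ IsCyclic Gal(M/ℚ) ∧ Nonempty (K →+* M) ∧
      ∃ x : M, x ^ 2 = (q : M)}.Infinite

theorem crv_iff (X : ℕ) (p : ℤ × ℤ) : Pool.Agent.N922.PQ.Crv X p.1 p.2 ↔ p ∈ Curves X := by
  constructor
  · rintro ⟨h1, h2, h3, h4⟩
    exact ⟨⟨h1, h2⟩, max_le h3 h4⟩
  · rintro ⟨⟨h1, h2⟩, h3⟩
    exact ⟨h1, h2, (le_max_left _ _).trans h3, (le_max_right _ _).trans h3⟩

theorem nonempty {X : ℕ} (hX : 27 ≤ X) : ((1, 1) : ℤ × ℤ) ∈ Curves X := by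
  refine ⟨⟨by norm_num, ?_⟩, ?_⟩
  · rintro p hp ⟨h, -⟩
    have h1 : ((p : ℤ)) ∣ 1 := (dvd_pow_self (p : ℤ) (by norm_num)).trans h
    have h2 : p ∣ 1 := by exact_mod_cast h1
    exact hp.one_lt.ne' (Nat.dvd_one.1 h2)
  · have : height ((1, 1) : ℤ × ℤ) = 27 := by
      simp [height]
    rw [this]
    exact_mod_cast hX

open Pool.Agent.N922.PQ (Ov IsPr)
open Pool.Agent.K6.H88.TC

theorem unr_iff {M : Type} [Field M] [NumberField M] {q : ℕ} (hq : q ≠ 0) :
    Unramified M q ↔ Unr M (q : ℤ) := by
  have e : ∀ w : HeightOneSpectrum (𝓞 M), w.valuation M ((q : ℤ) : M) = w.intValuation (q : 𝓞 M) := by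
    intro w
    rw [← HeightOneSpectrum.valuation_of_algebraMap (K := M)]
    congr 1
    push_cast
    rfl
  constructor
  · intro h w hw
    rw [e]
    have h2 : (q : 𝓞 M) ∈ w.asIdeal := by
      have := hw
      unfold Ov at this
      simpa using this
    have h3 := h w.asIdeal w.isPrime
    have a1 : w.intValuation (q : 𝓞 M) ≤ WithZero.exp (-((1 : ℕ) : ℤ)) := by
      rw [HeightOneSpectrum.intValuation_le_pow_iff_mem, pow_one]
      exact h2
    have a2 : ¬ w.intValuation (q : 𝓞 M) ≤ WithZero.exp (-((2 : ℕ) : ℤ)) := by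
      rw [HeightOneSpectrum.intValuation_le_pow_iff_mem]
      exact h3
    have h0 : w.intValuation (q : 𝓞 M) ≠ 0 := by
      intro h0
      apply a2
      rw [h0]
      exact zero_le'
    rw [← WithZero.exp_log h0] at a1 a2 ⊢
    rw [WithZero.exp_le_exp] at a1 a2
    congr 1
    push_cast at a1 a2
    omega
  · intro h 𝔭 h𝔭 hq2
    have hne : 𝔭 ≠ ⊥ := by
      rintro rfl
      rw [Ideal.bot_pow (by norm_num), Ideal.mem_bot] at hq2
      exact hq (by exact_mod_cast hq2)
    let w : HeightOneSpectrum (𝓞 M) := ⟨𝔭, h𝔭, hne⟩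
    have hw : Ov (q : ℤ) w := by
      change ((q : ℤ) : 𝓞 M) ∈ 𝔭
      have := Ideal.pow_le_self (by norm_num : 2 ≠ 0) hq2
      simpa using this
    have h1 := h w hw
    rw [e] at h1
    have h2 : w.intValuation (q : 𝓞 M) ≤ WithZero.exp (-((2 : ℕ) : ℤ)) := by
      rw [HeightOneSpectrum.intValuation_le_pow_iff_mem]
      exact hq2
    rw [h1, WithZero.exp_le_exp] at h2
    norm_num at h2

theorem spl_iff {M : Type} [Field M] [NumberField M] {q : ℕ} (hq : q ≠ 0) :
    SplitsCompletely M q ↔ Spl M (q : ℤ) := by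
  constructor
  · rintro ⟨h1, h2⟩ w hw
    refine ⟨(unr_iff hq).1 h1 w hw, h2 w.asIdeal w.isPrime ?_⟩
    have := hw
    unfold Ov at this
    simpa using this
  · intro h
    refine ⟨(unr_iff hq).2 fun w hw => (h w hw).1, fun 𝔭 h𝔭 hq𝔭 => ?_⟩
    have hne : 𝔭 ≠ ⊥ := by
      rintro rfl
      rw [Ideal.mem_bot] at hq𝔭
      exact hq (by exact_mod_cast hq𝔭)
    refine (h ⟨𝔭, h𝔭, hne⟩ ?_).2
    change ((q : ℤ) : 𝓞 M) ∈ 𝔭
    simpa using hq𝔭

theorem cls_iff {N : ℕ} {S : Finset ℤ} (hS : ∀ Q ∈ S, IsPr Q) {p : ℤ × ℤ} {M : Type} [Field M]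
    [NumberField M] : InClass N (S.image Int.toNat) p M ↔ InCls N S p.1 p.2 M := by
  have hnat : ∀ P : ℤ, IsPr P → ∃ q : ℕ, P = q ∧ q.Prime := by
    intro P hP
    obtain ⟨q, rfl⟩ : ∃ q : ℕ, P = q := ⟨P.toNat, by have := hP.1; omega⟩
    exact ⟨q, rfl, Nat.prime_iff_prime_int.2 hP.2⟩
  constructor
  · rintro ⟨h1, h2, h3, h4, h5⟩
    refine ⟨h1, h2, by exact_mod_cast (unr_iff two_ne_zero).1 h3, fun Q hQ => ?_, fun P hP hu => ?_⟩
    · obtain ⟨q, rfl, hq⟩ := hnat Q (hS Q hQ)
      exact (spl_iff hq.ne_zero).1 (h4 q (Finset.mem_image.2 ⟨q, hQ, by simp⟩))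
    · obtain ⟨q, rfl, hq⟩ := hnat P hP
      rcases h5 q hq fun h => hu ((unr_iff hq.ne_zero).1 h) with h | h
      · left
        exact_mod_cast h
      · exact Or.inr h
  · rintro ⟨h1, h2, h3, h4, h5⟩
    refine ⟨h1, h2, (unr_iff two_ne_zero).2 (by exact_mod_cast h3), fun q hq => ?_,
      fun q hq hu => ?_⟩
    · obtain ⟨Q, hQ, rfl⟩ := Finset.mem_image.1 hq
      obtain ⟨r, rfl, hr⟩ := hnat Q (hS Q hQ)
      rw [Int.toNat_natCast]
      exact (spl_iff hr.ne_zero).2 (h4 _ hQ)
    · rcases h5 q ⟨by exact_mod_cast hq.pos, Nat.prime_iff_prime_int.1 hq⟩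
        fun h => hu ((unr_iff hq.ne_zero).2 h) with h | h
      · left
        exact_mod_cast h
      · exact Or.inr h

theorem adm_of {N : ℕ} {p : ℤ × ℤ} {d : ℤ} (h : Admissible N p d) :
    Pool.Agent.K6.H88.TW.Adm N p.1 p.2 d := by
  refine ⟨h.1, fun P hP hPd => ?_⟩
  obtain ⟨q, rfl⟩ : ∃ q : ℕ, P = q := ⟨P.toNat, by have := hP.1; omega⟩
  have hq : q.Prime := Nat.prime_iff_prime_int.2 hP.2
  rcases h.2 q hq hPd with h1 | h1
  · left
    exact_mod_cast h1
  · exact Or.inr h1

theorem parity_of {N : ℕ} {S : Finset ℤ} {M : Type} [Field M] [NumberField M] {p : ℤ × ℤ} {d : ℤ}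
    (hp : 4 * p.1 ^ 3 + 27 * p.2 ^ 2 ≠ 0) (hN : ∀ P : ℤ, IsPr P → P ≤ N → NZ p.1 p.2 P)
    (hd : d ≠ 0) (hM : InCls N S p.1 p.2 M) (hnc : ¬ IsCyclic Gal(M/ℚ))
    (h : GoodE M p.1 p.2 d) : Parity M (twist M p d) := by
  have hfin : Finite (twist M p d).toAffine.Point := fin_tw h
  have hone : ∀ w, Signs M (twist M p d) w → globalSign M w = 1 := by
    intro w hw
    exact sign_one Pool.Agent.N922.PQ.parts2.p.sig hN hd hM hnc w hw.sign hp
      (fun v hv => hw.good v hv) hw.below
  have hrk : Module.finrank ℤ (twist M p d).toAffine.Point = 0 := by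
    rw [Module.finrank_eq_zero_iff]
    intro P
    refine ⟨(Nat.card (twist M p d).toAffine.Point : ℤ), ?_, ?_⟩
    · exact_mod_cast Nat.card_pos.ne'
    · rw [natCast_zsmul]
      exact card_nsmul_eq_zero'
  have hord : ∀ w, Signs M (twist M p d) w → ∀ (U : Set ℂ) (f : ℂ → ℂ),
      Continuation M (twist M p d) U f →
      FunctionalEquation (Module.finrank ℚ M) U f (globalSign M w) →
      Even (analyticOrderNatAt f 1) := by
    intro w hw U f hf hfe
    obtain ⟨A, hA, hA2⟩ := hfe
    refine even_order hf.isOpen hf.one hf.analytic (n := Module.finrank ℚ M) hA ?_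
    intro s hs hs2
    have h1 := hA2 s hs hs2
    rw [hone w hw, Int.cast_one, one_mul] at h1
    exact h1
  refine ⟨hfin, hone, fun w hw => ?_, fun w hw U f hf hfe => ⟨hord w hw U f hf hfe, ?_⟩⟩
  · rw [hrk, hone w hw, pow_zero]
  · rw [hrk, add_zero]
    exact hord w hw U f hf hfe

/-- For every Galois extension `K / ℚ` of 2-power degree in which `2` is unramified and every `N` there
are a finite set `S` of primes and `c > 0` such that for all large `X` at least `c` times
the number of all elliptic curves `E` over `ℚ` of height at most `X` satisfy `Uniform`: for the twists of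
`E` by all admissible `d` which are `1` or `2` modulo `4` the parity statements hold over ALL
fields in the class given by `E` and `S` which are not cyclic, and `K` is in this class. -/
theorem result (N : ℕ) (K : Type) [Field K] [NumberField K] [IsGalois ℚ K] (n : ℕ)
    (hn : Module.finrank ℚ K = 2 ^ n) (h2 : Unramified K 2) :
    (∀ X : ℕ, (Curves X).Finite) ∧
    ∃ S : Finset ℕ, (∀ q ∈ S, q.Prime ∧ SplitsCompletely K q) ∧
      ∃ c : ℝ, 0 < c ∧ ∀ᶠ X : ℕ in atTop,
        0 < (Curves X).ncard ∧
        c * ((Curves X).ncard : ℝ) ≤ (({p ∈ Curves X | Uniform N S K p}).ncard : ℝ) := by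
  have hset : ∀ X : ℕ, Curves X = {p : ℤ × ℤ | Pool.Agent.N922.PQ.Crv X p.1 p.2} := by
    intro X
    ext p
    exact (crv_iff X p).symm
  have hfin : ∀ X : ℕ, (Curves X).Finite := fun X => by
    rw [hset]
    exact Pool.Agent.N922.PQ.crv_fin X
  refine ⟨hfin, ?_⟩
  obtain ⟨S, hS, hKS, c, hc, X₀, h⟩ := mainD N K
  have hS' : ∀ Q ∈ S, IsPr Q := fun Q hQ => (hS Q hQ).1
  refine ⟨S.image Int.toNat, fun q hq => ?_, c, hc, ?_⟩
  · obtain ⟨Q, hQ, rfl⟩ := Finset.mem_image.1 hq
    obtain ⟨q, rfl⟩ : ∃ q : ℕ, Q = q := ⟨Q.toNat, by have := (hS' Q hQ).1; omega⟩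
    have hqp : q.Prime := Nat.prime_iff_prime_int.2 (hS' _ hQ).2
    rw [Int.toNat_natCast]
    exact ⟨hqp, (spl_iff hqp.ne_zero).2 (hKS _ hQ)⟩
  filter_upwards [eventually_ge_atTop (max X₀ 27)] with X hX
  refine ⟨(Set.ncard_pos (hfin X)).2 ⟨_, nonempty ((le_max_right _ _).trans hX)⟩, ?_⟩
  have h1 := (h X ((le_max_left _ _).trans hX)).2
  rw [← hset] at h1
  refine h1.trans ?_
  have h3 : {p : ℤ × ℤ | Pool.Agent.N922.PQ.Crv X p.1 p.2 ∧
      ((∀ P : ℤ, IsPr P → ¬ Unr K P → NZ p.1 p.2 P) ∧
        (∀ P : ℤ, IsPr P → P ≤ N → NZ p.1 p.2 P) ∧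
        (∀ t : ℚ, t ^ 3 + (p.1 : ℚ) * t + (p.2 : ℚ) ≠ 0) ∧
        ∀ (M : Type) [Field M] [NumberField M], InCls N S p.1 p.2 M →
          ∀ d : ℤ, (d % 4 = 1 ∨ d % 4 = 2) → Pool.Agent.K6.H88.TW.Adm N p.1 p.2 d →
            GoodE M p.1 p.2 d)} ⊆ {p ∈ Curves X | Uniform N (S.image Int.toNat) K p} := by
    rintro p ⟨hp, hK, hN, hirr, hall⟩
    have hKc : InCls N S p.1 p.2 K :=
      ⟨inferInstance, ⟨n, hn⟩, by exact_mod_cast (unr_iff two_ne_zero).1 h2, hKS,
        fun P hP hu => Or.inr (hK P hP hu)⟩
    refine ⟨(crv_iff X p).1 hp, (cls_iff hS').2 hKc, ?_, ?_⟩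
    · intro M _ _ hM hnc d hd hd4
      have hM' := (cls_iff hS').1 hM
      exact parity_of hp.disc hN hd.1 hM' hnc (hall M hM' d hd4 (adm_of hd))
    · refine (inf_noncyclic hp.disc hirr hS hKc).mono ?_
      rintro q ⟨hq, M, iF, iN, hM, hrest⟩
      exact ⟨hq, M, iF, iN, (cls_iff hS').2 hM, hrest⟩
  have h4 := Set.ncard_le_ncard h3 ((hfin X).subset fun p hp => hp.1)
  exact_mod_cast h4

end Pool.Agent.Results.MP_413b36_nt.ParityOverTwoExtensions
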